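import Mathlib

/-!
Order types of finite planar configurations and the distance to convex position.
-/

namespace Pool.Agent.OrderTypesDTC

/-- `det (q - p, r - p)` for points of the plane. -/
def det3 (p q r : ℝ × ℝ) : ℝ :=
  (q.1 - p.1) * (r.2 - p.2) - (q.2 - p.2) * (r.1 - p.1)

/-- every point of `S` is a vertex (extreme point) of the convex hull of `S` -/
def InConvexPosition (S : Finset (ℝ × ℝ)) : Prop :=
  ∀ p ∈ S, p ∈ Set.extremePoints ℝ (convexHull ℝ (S : Set (ℝ × ℝ)))

/-- equality of order types: a bijection preserving the orientation sign of every triple -/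
def SameOrderType (S T : Finset (ℝ × ℝ)) : Prop :=
  ∃ φ : S ≃ T, ∀ p q r : S,
    SignType.sign (det3 (φ p) (φ q) (φ r)) = SignType.sign (det3 p q r)

/-- minimum number of points whose removal leaves a set in convex position -/
noncomputable def dtc (S : Finset (ℝ × ℝ)) : ℕ :=
  sInf {d : ℕ | ∃ R : Finset (ℝ × ℝ), R ⊆ S ∧ R.card = d ∧ InConvexPosition (S \ R)}

/-- `n`-point configurations with `dtc < k`, up to equality of order types -/
def orderTypeSetoid (k n : ℕ) : Setoid {S : Finset (ℝ × ℝ) // S.card = n ∧ dtc S < k} where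
  r S T := SameOrderType S.1 T.1
  iseqv := by
    refine ⟨fun S => ⟨Equiv.refl _, fun p q r => rfl⟩, ?_, ?_⟩
    · rintro S T ⟨φ, h⟩
      refine ⟨φ.symm, fun p q r => ?_⟩
      have := h (φ.symm p) (φ.symm q) (φ.symm r)
      simpa using this.symm
    · rintro S T U ⟨φ, h⟩ ⟨ψ, h'⟩
      refine ⟨φ.trans ψ, fun p q r => ?_⟩
      rw [← h p q r, ← h' (φ p) (φ q) (φ r)]
      rfl

/-- the number `c_k(n)` of order types of `n`-point configurations with `dtc < k` -/
noncomputable def numOrderTypes (k n : ℕ) : ℕ := Nat.card (Quotient (orderTypeSetoid k n))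

end Pool.Agent.OrderTypesDTC
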