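import Pool.Agent.OrderTypesDTC.Defs

namespace Pool.Agent.OrderTypesDTC


/-- the right half plane with the upper half of its boundary line, origin removed -/
def Hp (v : ℝ × ℝ) : Prop := 0 < v.1 ∨ (v.1 = 0 ∧ 0 < v.2)

noncomputable def key (v : ℝ × ℝ) : ℝ := v.2 / (|v.1| + |v.2|)

def D (v w : ℝ × ℝ) : ℝ := v.1 * w.2 - v.2 * w.1

lemma Hp_denom {v : ℝ × ℝ} (h : Hp v) : 0 < |v.1| + |v.2| := by
  rcases h with h | ⟨_, h⟩
  · have := abs_pos.mpr h.ne'; positivity
  · have := abs_pos.mpr h.ne'; positivity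

lemma Hp_fst {v : ℝ × ℝ} (h : Hp v) : 0 ≤ v.1 := by
  rcases h with h | ⟨h, _⟩ <;> linarith

lemma key_lt {u v : ℝ × ℝ} (hu : Hp u) (hv : Hp v) : key u < key v ↔ 0 < D u v := by
  unfold key D
  rw [div_lt_div_iff₀ (Hp_denom hu) (Hp_denom hv)]
  rw [abs_of_nonneg (Hp_fst hu), abs_of_nonneg (Hp_fst hv)]
  have h1 := Hp_fst hu
  have h2 := Hp_fst hv
  rcases le_or_gt 0 u.2 with h3 | h3 <;> rcases le_or_gt 0 v.2 with h4 | h4
  · rw [abs_of_nonneg h3, abs_of_nonneg h4]
    constructor <;> intro h <;> nlinarith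
  · rw [abs_of_nonneg h3, abs_of_neg h4]
    constructor
    · intro h
      exfalso
      nlinarith [mul_nonneg h3 h2, mul_nonneg h3 (neg_nonneg.mpr h4.le), mul_nonneg h1 (neg_nonneg.mpr h4.le)]
    · intro h
      exfalso
      nlinarith [mul_nonneg h3 h2, mul_nonneg h3 (neg_nonneg.mpr h4.le), mul_nonneg h1 (neg_nonneg.mpr h4.le)]
  · rw [abs_of_neg h3, abs_of_nonneg h4]
    constructor
    · intro h
      rcases hv with hv | ⟨hv, hv'⟩
      · nlinarith [mul_pos (neg_pos.mpr h3) hv, mul_nonneg h1 h4]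
      · rcases hu with hu | ⟨hu, hu'⟩
        · rw [hv]; nlinarith [mul_pos hu hv']
        · linarith
    · intro h
      have h5 : 0 < (-u.2) * (v.1 + v.2) := by
        apply mul_pos (by linarith)
        rcases hv with hv | ⟨hv, hv'⟩ <;> linarith
      have h6 : 0 ≤ v.2 * (u.1 + -u.2) := mul_nonneg h4 (by linarith)
      nlinarith
  · rw [abs_of_neg h3, abs_of_neg h4]
    constructor <;> intro h <;> nlinarith

lemma key_abs_le (v : ℝ × ℝ) : -1 ≤ key v := by
  unfold key
  rcases eq_or_lt_of_le (add_nonneg (abs_nonneg v.1) (abs_nonneg v.2)) with h | h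
  · rw [← h]; simp
  · rw [le_div_iff₀ h]
    nlinarith [abs_nonneg v.1, neg_abs_le v.2]

open Classical in
noncomputable def up (v : ℝ × ℝ) : ℝ × ℝ := if Hp v then v else -v

lemma Hp_or_neg {v : ℝ × ℝ} (h : v ≠ 0) : Hp v ∨ Hp (-v) := by
  unfold Hp
  rcases lt_trichotomy v.1 0 with h1 | h1 | h1
  · right; left; simpa using h1
  · rcases lt_trichotomy v.2 0 with h2 | h2 | h2
    · right; right; simp [h1, h2]
    · exact absurd (Prod.ext h1 h2) h
    · left; right; exact ⟨h1, h2⟩
  · left; left; exact h1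

lemma Hp_up {v : ℝ × ℝ} (h : v ≠ 0) : Hp (up v) := by
  unfold up
  split_ifs with h1
  · exact h1
  · exact (Hp_or_neg h).resolve_left h1

/-- the far chain is seen increasing -/
lemma far_chain {A B E F G X : ℝ} (hB : 0 ≤ B) (hE : 0 ≤ E)
    (h1 : 0 < A + X - B) (h2 : 0 < X + F - E) (h3 : 0 < A + E - G)
    (hgp : A * F - B * E + G * X = 0) : 0 < X := by
  by_contra hX
  push Not at hX
  have hA' : 0 < A := by linarith
  have e1 : 0 ≤ (A + X - B) * E := mul_nonneg h1.le hE
  have e2 : 0 < A * (X + F - E) := mul_pos hA' h2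
  have e3 : 0 ≤ (-X) * (A + E - G) := mul_nonneg (by linarith) h3.le
  nlinarith

/-- the near chain is seen decreasing -/
lemma near_chain {A B E F G X : ℝ} (hA : 0 ≤ A) (hB : 0 ≤ B) (hE : 0 ≤ E) (hF : 0 ≤ F)
    (h1 : 0 < -A + X + B) (h2 : 0 < X - F + E) (h3 : 0 < -A - E + G)
    (hgp : A * F - B * E - G * X = 0) : X < 0 := by
  by_contra hX
  push Not at hX
  rcases eq_or_lt_of_le hX with hX | hX
  · subst hX
    have hB' : 0 < B := by linarith
    have hE' : 0 < E := by linarith
    nlinarith [mul_pos hB' (show 0 < E - F by linarith), mul_nonneg hF (show 0 ≤ B - A by linarith)]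
  · have e1 : 0 < X * (-A - E + G) := mul_pos hX h3
    -- A * (F - X) > E * (B + X)
    have e2 : A * (F - X) > E * (B + X) := by nlinarith
    rcases le_or_gt (F - X) 0 with h4 | h4
    · nlinarith [mul_nonneg hA (neg_nonneg.mpr h4), mul_nonneg hE (add_nonneg hB hX.le)]
    · have : A * (F - X) ≤ (B + X) * (F - X) := mul_le_mul_of_nonneg_right (by linarith) h4.le
      have : (B + X) * (F - X) ≤ (B + X) * E := mul_le_mul_of_nonneg_left (by linarith) (by linarith)
      nlinarith


lemma exists_classes {m : ℕ} (Dm : Fin m → Fin m → ℝ) (x : Fin m → ℝ) (I : Finset (Fin m))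
    (hanti : ∀ i j, Dm i j = - Dm j i)
    (hgp : ∀ i j k l, Dm i j * Dm k l - Dm i k * Dm j l + Dm i l * Dm j k = 0)
    (hT : ∀ i j k, i < j → j < k → 0 < Dm i j + Dm j k - Dm i k)
    (hx : ∀ i ∈ I, ∀ j ∈ I, (x i < x j ↔ 0 < Dm i j)) :
    ∃ (g : Fin m → Fin 5) (dir : Fin 5 → Bool), ∀ i ∈ I, ∀ j ∈ I, i < j → g i = g j →
      if dir (g i) then x i < x j else x j < x i := by
  rcases I.eq_empty_or_nonempty with hI | hI
  · subst hI
    exact ⟨fun _ => 0, fun _ => true, by simp⟩
  obtain ⟨a, haI, ha⟩ := Finset.exists_min_image I x hI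
  obtain ⟨b, hbI, hb⟩ := Finset.exists_max_image I x hI
  have hnn : ∀ i ∈ I, ∀ j ∈ I, x i ≤ x j → 0 ≤ Dm i j := by
    intro i hi j hj hij
    have : ¬ (0 < Dm j i) := fun h => absurd ((hx j hj i hi).mpr h) (not_lt.mpr hij)
    have := hanti i j
    linarith
  have haD : ∀ i ∈ I, 0 ≤ Dm a i := fun i hi => hnn a haI i hi (ha i hi)
  have hbD : ∀ i ∈ I, 0 ≤ Dm i b := fun i hi => hnn i hi b hbI (hb i hi)
  have hfar : ∀ i ∈ I, ∀ j ∈ I, 0 < Dm a i + Dm i j + Dm j a → 0 < Dm i j + Dm j b + Dm b i →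
      0 < Dm a i + Dm i b + Dm b a → x i < x j := by
    intro i hi j hj h1 h2 h3
    rw [hx i hi j hj]
    have e1 := hanti j a
    have e2 := hanti b i
    have e3 := hanti b a
    exact far_chain (A := Dm a i) (B := Dm a j) (E := Dm i b) (F := Dm j b) (G := Dm a b)
      (haD j hj) (hbD i hi) (by linarith) (by linarith) (by linarith) (by
        have := hgp a i j b; linarith)
  have hnear : ∀ i ∈ I, ∀ j ∈ I, 0 < Dm b i + Dm i j + Dm j b → 0 < Dm i j + Dm j a + Dm a i →
      0 < Dm b i + Dm i a + Dm a b → x j < x i := by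
    intro i hi j hj h1 h2 h3
    rw [hx j hj i hi]
    have e1 := hanti b i
    have e2 := hanti j a
    have e3 := hanti i a
    have e4 := hanti i j
    have := near_chain (A := Dm i b) (B := Dm j b) (E := Dm a i) (F := Dm a j) (G := Dm a b)
      (X := Dm i j)
      (hbD i hi) (hbD j hj) (haD i hi) (haD j hj) (by linarith) (by linarith) (by linarith) (by
        have e5 := hgp b i j a
        have e6 := hanti b j
        have e7 := hanti b a
        rw [e1, e2, e3, e6, e7] at e5
        linarith)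
    linarith
  have hdiag : ∀ i, Dm i i = 0 := fun i => by have := hanti i i; linarith
  refine ⟨fun i => if i < min a b then 0 else if i = min a b then 1 else
      if i < max a b then 2 else if i = max a b then 3 else 4,
    fun c => if a < b then decide (c = 2) else decide (c ≠ 2), ?_⟩
  intro i hi j hj hij hg
  have hcases : (j < min a b) ∨ (min a b < i ∧ j < max a b) ∨ (max a b < i) := by
    by_contra hcon
    push Not at hcon
    obtain ⟨c1, c2, c3⟩ := hcon
    simp only at hg
    have hmm : min a b ≤ max a b := min_le_max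
    split_ifs at hg <;> first | (exact absurd hg (by decide)) | omega
  have t := hT
  rcases lt_trichotomy a b with hab | hab | hab
  · rw [min_eq_left hab.le, max_eq_right hab.le] at *
    rcases hcases with h | ⟨h, h'⟩ | h
    · -- i < j < a < b : near
      have hia : i < a := lt_trans hij h
      have : (if i < a then (0 : Fin 5) else if i = a then 1 else
        if i < b then 2 else if i = b then 3 else 4) = 0 := by simp [hia]
      simp only [this, hab, if_true]
      have q1 := t i j b hij (lt_trans h hab)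
      have q2 := t i j a hij h
      have q3 := t i a b hia hab
      have := hanti b i; have := hanti a i; have := hanti a b
      simpa using hnear i hi j hj (by linarith) (by linarith) (by have := hanti b a; linarith)
    · have hib : i < b := lt_trans hij h'
      have : (if i < a then (0 : Fin 5) else if i = a then 1 else
        if i < b then 2 else if i = b then 3 else 4) = 2 := by
        simp [hib, not_lt.mpr h.le, h.ne']
      simp only [this, hab, if_true]
      have q1 := t a i j h hij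
      have q2 := t i j b hij h'
      have q3 := t a i b h hib
      have := hanti j a; have := hanti b i; have := hanti b a
      simpa using hfar i hi j hj (by linarith) (by linarith) (by linarith)
    · have hbj : b < j := lt_trans h hij
      have hai : a < i := lt_trans hab h
      have : (if i < a then (0 : Fin 5) else if i = a then 1 else
        if i < b then 2 else if i = b then 3 else 4) = 4 := by
        simp [not_lt.mpr h.le, h.ne', not_lt.mpr hai.le, hai.ne']
      simp only [this, hab, if_true]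
      have q1 := t b i j h hij
      have q2 := t a i j hai hij
      have q3 := t a b i hab h
      have := hanti j b; have := hanti j a; have := hanti i a; 
      simpa using hnear i hi j hj (by linarith) (by linarith) (by linarith)
  · -- a = b
    exfalso
    subst hab
    simp only [min_self, max_self] at hcases
    have hz : ∀ k ∈ I, ∀ l ∈ I, Dm k l = 0 := by
      intro k hk l hl
      have e1 : x k = x l := le_antisymm ((hb k hk).trans (ha l hl)) ((hb l hl).trans (ha k hk))
      have := hnn k hk l hl e1.le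
      have := hnn l hl k hk e1.ge
      have := hanti k l
      linarith
    rcases hcases with h | ⟨h, h'⟩ | h
    · have := t i j a hij h
      rw [hz i hi j hj, hz j hj a haI, hz i hi a haI] at this
      simp at this
    · exact absurd (lt_trans h hij) (not_lt.mpr h'.le)
    · have := t a i j h hij
      rw [hz i hi j hj, hz a haI i hi, hz a haI j hj] at this
      simp at this
  · have hnab : ¬ a < b := not_lt.mpr hab.le
    rw [min_eq_right hab.le, max_eq_left hab.le] at *
    rcases hcases with h | ⟨h, h'⟩ | h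
    · -- i < j < b < a : far
      have hib : i < b := lt_trans hij h
      have : (if i < b then (0 : Fin 5) else if i = b then 1 else
        if i < a then 2 else if i = a then 3 else 4) = 0 := by simp [hib]
      simp only [this, hnab, if_false]
      have q1 := t i j a hij (lt_trans h hab)
      have q2 := t i j b hij h
      have q3 := t i b a hib hab
      have := hanti j a; have := hanti a i; have := hanti b i; 
      simpa using hfar i hi j hj (by have := hanti j a; linarith) (by linarith) (by linarith)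
    · have hia : i < a := lt_trans hij h'
      have : (if i < b then (0 : Fin 5) else if i = b then 1 else
        if i < a then 2 else if i = a then 3 else 4) = 2 := by
        simp [hia, not_lt.mpr h.le, h.ne']
      simp only [this, hnab, if_false]
      have q1 := t b i j h hij
      have q2 := t i j a hij h'
      have q3 := t b i a h hia
      have := hanti j b; have := hanti a i; have := hanti b a
      simpa using hnear i hi j hj (by linarith) (by linarith) (by linarith [hanti a b])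
    · have haj : a < j := lt_trans h hij
      have hbi : b < i := lt_trans hab h
      have : (if i < b then (0 : Fin 5) else if i = b then 1 else
        if i < a then 2 else if i = a then 3 else 4) = 4 := by
        simp [not_lt.mpr h.le, h.ne', not_lt.mpr hbi.le, hbi.ne']
      simp only [this, hnab, if_false]
      have q1 := t a i j h hij
      have q2 := t b i j hbi hij
      have q3 := t b a i hab h
      have := hanti j a; have := hanti j b; have := hanti i b; 
      simpa using hfar i hi j hj (by linarith) (by linarith [hanti b i]) (by linarith [hanti b i])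


/-- number of indices of class `β` with value below that of `i` -/
noncomputable def cnt {m : ℕ} {ι : Type} [DecidableEq ι] (g : Fin m → ι) (x : Fin m → ℝ) (β : ι) (i : Fin m) : ℕ :=
  (Finset.univ.filter (fun j => g j = β ∧ x j < x i)).card

lemma cnt_le {m : ℕ} {ι : Type} [DecidableEq ι] (g : Fin m → ι) (x : Fin m → ℝ) (β : ι) (i : Fin m) :
    cnt g x β i ≤ m := by
  unfold cnt
  calc _ ≤ (Finset.univ : Finset (Fin m)).card := Finset.card_filter_le _ _
    _ = m := by simp

lemma cnt_mono {m : ℕ} {ι : Type} [DecidableEq ι] (g : Fin m → ι) (x : Fin m → ℝ) (β : ι) {i j : Fin m}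
    (h : x i ≤ x j) : cnt g x β i ≤ cnt g x β j := by
  unfold cnt
  apply Finset.card_le_card
  intro k hk
  simp only [Finset.mem_filter, Finset.mem_univ, true_and] at hk ⊢
  exact ⟨hk.1, lt_of_lt_of_le hk.2 h⟩

lemma lt_iff_cnt {m : ℕ} {ι : Type} [DecidableEq ι] (g : Fin m → ι) (x : Fin m → ℝ) (i j : Fin m) :
    x j < x i ↔ cnt g x (g j) j < cnt g x (g j) i := by
  constructor
  · intro h
    unfold cnt
    apply Finset.card_lt_card
    rw [Finset.ssubset_iff_of_subset]
    · exact ⟨j, by simp [h], by simp⟩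
    · intro k hk
      simp only [Finset.mem_filter, Finset.mem_univ, true_and] at hk ⊢
      exact ⟨hk.1, hk.2.trans h⟩
  · intro h
    by_contra hcon
    push Not at hcon
    exact absurd (cnt_mono g x (g j) hcon) (not_le.mpr h)

/-- the increasing version of `cnt` on each class -/
noncomputable def hh {m : ℕ} {ι : Type} [DecidableEq ι] (g : Fin m → ι) (dir : ι → Bool) (x : Fin m → ℝ)
    (β : ι) (i : Fin m) : ℕ :=
  if dir (g i) then cnt g x β i else m - cnt g x β i

abbrev Code (m : ℕ) (ι : Type) : Type :=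
  (Fin m → ι) × (ι → Bool) × (ι → ι → Finset (Fin (2 * m + 1)))

/-- `cd` encodes the order pattern of `x` -/
def EncOrd {m : ℕ} {ι : Type} [DecidableEq ι] (x : Fin m → ℝ) (cd : Code m ι) : Prop :=
  (∀ i j, i < j → cd.1 i = cd.1 j → if cd.2.1 (cd.1 i) then x i < x j else x j < x i) ∧
  ∀ α β, ∀ v : Fin (2 * m + 1), v ∈ cd.2.2 α β ↔
    ∃ i, cd.1 i = α ∧ hh cd.1 cd.2.1 x β i + (i : ℕ) = (v : ℕ)

lemma hh_le {m : ℕ} {ι : Type} [DecidableEq ι] (g : Fin m → ι) (dir : ι → Bool) (x : Fin m → ℝ)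
    (β : ι) (i : Fin m) : hh g dir x β i ≤ m := by
  unfold hh
  split_ifs
  · exact cnt_le _ _ _ _
  · omega

lemma exists_code {m : ℕ} {ι : Type} [DecidableEq ι] (x : Fin m → ℝ) (g : Fin m → ι) (dir : ι → Bool)
    (h : ∀ i j, i < j → g i = g j → if dir (g i) then x i < x j else x j < x i) :
    ∃ cd : Code m ι, cd.1 = g ∧ EncOrd x cd := by
  classical
  refine ⟨(g, dir, fun α β => Finset.univ.filter (fun v : Fin (2 * m + 1) =>
    ∃ i, g i = α ∧ hh g dir x β i + (i : ℕ) = (v : ℕ))), rfl, h, ?_⟩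
  intro α β v
  simp

lemma hh_strictMono {m : ℕ} {ι : Type} [DecidableEq ι] {x : Fin m → ℝ} {cd : Code m ι} (h : EncOrd x cd) (α β : ι) :
    StrictMono (fun i : {i : Fin m // cd.1 i = α} => hh cd.1 cd.2.1 x β i + (i : ℕ)) := by
  rintro ⟨i, hi⟩ ⟨j, hj⟩ hij
  have hij' : i < j := hij
  have h1 := h.1 i j hij' (hi.trans hj.symm)
  have h2 : (i : ℕ) < (j : ℕ) := hij'
  simp only [hh, hi, hj]
  rw [hi] at h1
  split_ifs at h1 ⊢ with hd
  · have := cnt_mono cd.1 x β h1.le
    omega
  · have := cnt_mono cd.1 x β h1.le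
    omega

lemma EncOrd.cnt_eq {m : ℕ} {ι : Type} [DecidableEq ι] {x y : Fin m → ℝ} {cd : Code m ι} (hx : EncOrd x cd)
    (hy : EncOrd y cd) (β : ι) (i : Fin m) : cnt cd.1 x β i = cnt cd.1 y β i := by
  have hsx := hh_strictMono hx (cd.1 i) β
  have hsy := hh_strictMono hy (cd.1 i) β
  have hr : Set.range (fun i' : {i' : Fin m // cd.1 i' = cd.1 i} =>
      hh cd.1 cd.2.1 x β i' + (i' : ℕ)) =
      Set.range (fun i' : {i' : Fin m // cd.1 i' = cd.1 i} =>
      hh cd.1 cd.2.1 y β i' + (i' : ℕ)) := by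
    have key : ∀ {z w : Fin m → ℝ}, EncOrd z cd → EncOrd w cd → 
      Set.range (fun i' : {i' : Fin m // cd.1 i' = cd.1 i} =>
      hh cd.1 cd.2.1 z β i' + (i' : ℕ)) ⊆
      Set.range (fun i' : {i' : Fin m // cd.1 i' = cd.1 i} =>
      hh cd.1 cd.2.1 w β i' + (i' : ℕ)) := by
      intro z w hz hw
      rintro _ ⟨⟨j, hj⟩, rfl⟩
      have hlt : hh cd.1 cd.2.1 z β j + (j : ℕ) < 2 * m + 1 := by
        have := hh_le cd.1 cd.2.1 z β j
        have := j.2
        omega
      have hmem := (hz.2 (cd.1 i) β ⟨_, hlt⟩).mpr ⟨j, hj, rfl⟩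
      obtain ⟨k, hk, hk'⟩ := (hw.2 (cd.1 i) β ⟨_, hlt⟩).mp hmem
      exact ⟨⟨k, hk⟩, hk'⟩
    exact Set.Subset.antisymm (key hx hy) (key hy hx)
  have hfun := (hsx.range_inj hsy).mp hr
  have h1 := congrFun hfun ⟨i, rfl⟩
  simp only [hh] at h1
  have h2 := cnt_le cd.1 x β i
  have h3 := cnt_le cd.1 y β i
  split_ifs at h1 <;> omega

lemma EncOrd.lt_iff {m : ℕ} {ι : Type} [DecidableEq ι] {x y : Fin m → ℝ} {cd : Code m ι} (hx : EncOrd x cd)
    (hy : EncOrd y cd) (i j : Fin m) : x i < x j ↔ y i < y j := by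
  rw [lt_iff_cnt cd.1 x j i, lt_iff_cnt cd.1 y j i, hx.cnt_eq hy, hx.cnt_eq hy]

/-- counterclockwise labelled convex polygon -/
def CCW {m : ℕ} (c : Fin m → ℝ × ℝ) : Prop :=
  ∀ i j k, i < j → j < k → 0 < det3 (c i) (c j) (c k)

abbrev PtCode (m : ℕ) : Type := (Fin m → Bool) × Code m (Bool × Fin 5)

/-- `cd` encodes the position of `p` with respect to the polygon `c` -/
def EncPt {m : ℕ} (c : Fin m → ℝ × ℝ) (p : ℝ × ℝ) (cd : PtCode m) : Prop :=
  (∀ i, cd.1 i = true ↔ Hp (c i - p)) ∧ EncOrd (fun i => key (up (c i - p))) cd.2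

lemma exists_encPt {m : ℕ} (c : Fin m → ℝ × ℝ) (p : ℝ × ℝ) (hc : CCW c) (hp : ∀ i, c i ≠ p) :
    ∃ cd, EncPt c p cd := by
  classical
  set v : Fin m → ℝ × ℝ := fun i => c i - p with hv
  have hv0 : ∀ i, v i ≠ 0 := fun i => sub_ne_zero.mpr (hp i)
  have hanti : ∀ i j, D (v i) (v j) = - D (v j) (v i) := by
    intro i j; unfold D; ring
  have hgp : ∀ i j k l, D (v i) (v j) * D (v k) (v l) - D (v i) (v k) * D (v j) (v l)
      + D (v i) (v l) * D (v j) (v k) = 0 := by
    intro i j k l; unfold D; ring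
  have hT : ∀ i j k, i < j → j < k → 0 < D (v i) (v j) + D (v j) (v k) - D (v i) (v k) := by
    intro i j k hij hjk
    have h := hc i j k hij hjk
    have e : D (v i) (v j) + D (v j) (v k) - D (v i) (v k) = det3 (c i) (c j) (c k) := by
      simp only [D, det3, hv, Prod.fst_sub, Prod.snd_sub]; ring
    rw [e]; exact h
  have hx1 : ∀ i ∈ Finset.univ.filter (fun i => Hp (v i)),
      ∀ j ∈ Finset.univ.filter (fun i => Hp (v i)),
      (key (up (v i)) < key (up (v j)) ↔ 0 < D (v i) (v j)) := by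
    intro i hi j hj
    simp only [Finset.mem_filter, Finset.mem_univ, true_and] at hi hj
    rw [key_lt (Hp_up (hv0 i)) (Hp_up (hv0 j))]
    simp [up, hi, hj]
  have hx2 : ∀ i ∈ Finset.univ.filter (fun i => ¬ Hp (v i)),
      ∀ j ∈ Finset.univ.filter (fun i => ¬ Hp (v i)),
      (key (up (v i)) < key (up (v j)) ↔ 0 < D (v i) (v j)) := by
    intro i hi j hj
    simp only [Finset.mem_filter, Finset.mem_univ, true_and] at hi hj
    rw [key_lt (Hp_up (hv0 i)) (Hp_up (hv0 j))]
    simp [up, hi, hj, D]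
  obtain ⟨g1, d1, h1⟩ := exists_classes (fun i j => D (v i) (v j)) _ _ hanti hgp hT hx1
  obtain ⟨g2, d2, h2⟩ := exists_classes (fun i j => D (v i) (v j)) _ _ hanti hgp hT hx2
  obtain ⟨cd, hcd, henc⟩ := exists_code (fun i => key (up (v i)))
    (fun i => if Hp (v i) then (true, g1 i) else (false, g2 i))
    (fun α : Bool × Fin 5 => if α.1 then d1 α.2 else d2 α.2) (by
      intro i j hij hg
      by_cases hi : Hp (v i) <;> by_cases hj : Hp (v j)
      · simp only [hi, hj, if_true, Prod.mk.injEq, true_and] at hg ⊢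
        exact h1 i (by simp [hi]) j (by simp [hj]) hij hg
      · simp [hi, hj] at hg
      · simp [hi, hj] at hg
      · simp only [hi, hj, if_false, Prod.mk.injEq, true_and] at hg ⊢
        have := h2 i (by simp [hi]) j (by simp [hj]) hij hg
        simpa using this)
  exact ⟨(fun i => decide (Hp (v i)), cd), by simp [hv], henc⟩

lemma sign_eq_of {a b : ℝ} (h1 : 0 < a ↔ 0 < b) (h2 : a < 0 ↔ b < 0) :
    SignType.sign a = SignType.sign b := by
  rcases lt_trichotomy a 0 with h | h | h
  · rw [sign_neg h, sign_neg (h2.mp h)]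
  · subst h
    have hb : b = 0 := by
      apply le_antisymm
      · by_contra hc; exact absurd (h1.mpr (not_le.mp hc)) (lt_irrefl _)
      · by_contra hc; exact absurd (h2.mpr (not_le.mp hc)) (lt_irrefl _)
    rw [hb]
  · rw [sign_pos h, sign_pos (h1.mp h)]

lemma D_swap (v w : ℝ × ℝ) : D v w = - D w v := by unfold D; ring

lemma sign_D_eq {v w v' w' : ℝ × ℝ} (hv : v ≠ 0) (hw : w ≠ 0) (hv' : v' ≠ 0) (hw' : w' ≠ 0)
    (h1 : Hp v ↔ Hp v') (h2 : Hp w ↔ Hp w')
    (h3 : key (up v) < key (up w) ↔ key (up v') < key (up w'))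
    (h4 : key (up w) < key (up v) ↔ key (up w') < key (up v')) :
    SignType.sign (D v w) = SignType.sign (D v' w') := by
  rw [key_lt (Hp_up hv) (Hp_up hw), key_lt (Hp_up hv') (Hp_up hw')] at h3
  rw [key_lt (Hp_up hw) (Hp_up hv), key_lt (Hp_up hw') (Hp_up hv')] at h4
  have h5 : SignType.sign (D (up v) (up w)) = SignType.sign (D (up v') (up w')) := by
    apply sign_eq_of h3
    rw [D_swap (up w) (up v), D_swap (up w') (up v')] at h4
    constructor
    · intro h; have := h4.mp (by linarith); linarith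
    · intro h; have := h4.mpr (by linarith); linarith
  have e1 : ∀ a b : ℝ × ℝ, D (-a) b = - D a b := by intro a b; simp [D]; ring
  have e2 : ∀ a b : ℝ × ℝ, D a (-b) = - D a b := by intro a b; simp [D]; ring
  unfold up at h5
  by_cases hv1 : Hp v <;> by_cases hw1 : Hp w
  · simpa [hv1, hw1, ← h1, ← h2] using h5
  · have : ¬ Hp w' := fun h => hw1 (h2.mpr h)
    simpa [hv1, hw1, ← h1, this, e2, Left.sign_neg] using h5
  · have : ¬ Hp v' := fun h => hv1 (h1.mpr h)
    simpa [hv1, hw1, ← h2, this, e1, Left.sign_neg] using h5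
  · have t1 : ¬ Hp w' := fun h => hw1 (h2.mpr h)
    have t2 : ¬ Hp v' := fun h => hv1 (h1.mpr h)
    simpa [hv1, hw1, t1, t2, e1, e2] using h5

lemma EncPt.sign_eq {m : ℕ} {c c' : Fin m → ℝ × ℝ} {p p' : ℝ × ℝ} {cd : PtCode m}
    (h : EncPt c p cd) (h' : EncPt c' p' cd) (hp : ∀ i, c i ≠ p) (hp' : ∀ i, c' i ≠ p')
    (i j : Fin m) :
    SignType.sign (det3 p (c i) (c j)) = SignType.sign (det3 p' (c' i) (c' j)) := by
  have e : ∀ a b d : ℝ × ℝ, det3 a b d = D (b - a) (d - a) := by
    intro a b d; simp [det3, D]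
  rw [e, e]
  apply sign_D_eq (sub_ne_zero.mpr (hp i)) (sub_ne_zero.mpr (hp j)) (sub_ne_zero.mpr (hp' i))
    (sub_ne_zero.mpr (hp' j)) ((h.1 i).symm.trans (h'.1 i)) ((h.1 j).symm.trans (h'.1 j))
  · exact h.2.lt_iff h'.2 i j
  · exact h.2.lt_iff h'.2 j i

lemma not_mem_hull {S : Finset (ℝ × ℝ)} (hS : InConvexPosition S) {p : ℝ × ℝ} (hp : p ∈ S) :
    p ∉ convexHull ℝ ((S : Set (ℝ × ℝ)) \ {p}) := by
  intro h
  have h1 := hS p hp
  rw [Convex.mem_extremePoints_iff_mem_sdiff_convexHull_sdiff (convex_convexHull ℝ _)] at h1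
  apply h1.2
  exact convexHull_mono (Set.sdiff_subset_sdiff_left (subset_convexHull ℝ _)) h

lemma comb3_mem {T : Set (ℝ × ℝ)} {x y z w : ℝ × ℝ} (hx : x ∈ T) (hy : y ∈ T) (hz : z ∈ T)
    {a b c : ℝ} (ha : 0 ≤ a) (hb : 0 ≤ b) (hc : 0 ≤ c) (habc : a + b + c = 1)
    (hw : w = a • x + b • y + c • z) : w ∈ convexHull ℝ T := by
  have hconv := convex_convexHull ℝ T
  have := hconv.sum_mem (t := Finset.univ) (w := ![a, b, c]) (z := ![x, y, z])
    (by intro i _; fin_cases i <;> simp [ha, hb, hc])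
    (by simp [Fin.sum_univ_three, habc])
    (by intro i _; fin_cases i
        · simpa using subset_convexHull ℝ T hx
        · simpa using subset_convexHull ℝ T hy
        · simpa using subset_convexHull ℝ T hz)
  rw [Fin.sum_univ_three] at this
  rw [hw]
  simpa using this

lemma exists_enum_of_inj {α : Type} [Fintype α] {m : ℕ} (h : Fintype.card α = m) (K : α → ℝ)
    (hK : Function.Injective K) : ∃ e : Fin m ≃ α, ∀ i j, i < j → K (e i) < K (e j) := by
  let _ : LinearOrder α := LinearOrder.lift' K hK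
  let e := monoEquivOfFin α h
  refine ⟨e.toEquiv, ?_⟩
  intro i j hij
  exact e.strictMono hij

lemma exists_enum (S : Finset (ℝ × ℝ)) (hS : InConvexPosition S) (m : ℕ) (hm : S.card = m) :
    ∃ e : Fin m ≃ S, CCW (fun i => ((e i : S) : ℝ × ℝ)) := by
  classical
  rcases S.eq_empty_or_nonempty with hE | hE
  · subst hE
    have : m = 0 := by simpa using hm.symm
    subst this
    have : IsEmpty (↥(∅ : Finset (ℝ × ℝ))) := by
      constructor; rintro ⟨x, hx⟩; simp at hx
    refine ⟨Equiv.equivOfIsEmpty _ _, ?_⟩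
    intro i; exact Fin.elim0 i
  obtain ⟨c0, hc0, hmin⟩ := Finset.exists_min_image S (fun p => toLex p) hE
  have hHp : ∀ x ∈ S, x ≠ c0 → Hp (x - c0) := by
    intro x hx hne
    have h1 := hmin x hx
    have h2 : toLex c0 < toLex x := lt_of_le_of_ne h1 (fun h => hne (by simpa using h.symm))
    rw [Prod.Lex.toLex_lt_toLex] at h2
    rcases h2 with h2 | ⟨h2, h3⟩
    · left; simpa using h2
    · right; constructor
      · simp [h2]
      · simpa using h3
  set K : S → ℝ := fun x => if (x : ℝ × ℝ) = c0 then -2 else key ((x : ℝ × ℝ) - c0) with hK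
  have hKinj : Function.Injective K := by
    rintro ⟨x, hx⟩ ⟨y, hy⟩ hxy
    simp only [hK] at hxy
    by_cases h1 : x = c0 <;> by_cases h2 : y = c0
    · simp [h1, h2]
    · exfalso
      rw [if_pos h1, if_neg h2] at hxy
      have := key_abs_le (y - c0); linarith
    · exfalso
      rw [if_neg h1, if_pos h2] at hxy
      have := key_abs_le (x - c0); linarith
    · rw [if_neg h1, if_neg h2] at hxy
      by_contra hne
      have hne' : x ≠ y := fun h => hne (by simp [h])
      have hpx := hHp x hx h1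
      have hpy := hHp y hy h2
      have hD0 : D (x - c0) (y - c0) = 0 := by
        have q1 : ¬ (0 < D (x - c0) (y - c0)) := fun h => by
          have := (key_lt hpx hpy).mpr h; linarith
        have q2 : ¬ (0 < D (y - c0) (x - c0)) := fun h => by
          have := (key_lt hpy hpx).mpr h; linarith
        have := D_swap (x - c0) (y - c0)
        push Not at q1 q2
        linarith
      -- one is on the segment from c0 to the other
      have main : ∀ u w : ℝ × ℝ, u ∈ S → w ∈ S → u ≠ c0 → w ≠ c0 → u ≠ w →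
          D (u - c0) (w - c0) = 0 → Hp (u - c0) → Hp (w - c0) →
          (u - c0).1 + |(u - c0).2| ≤ (w - c0).1 + |(w - c0).2| → False := by
        intro u w hu hw hu0 hw0 huw hD hpu hpw hle
        have hpos : 0 < (w - c0).1 + |(w - c0).2| := by
          have := Hp_denom hpw
          rwa [abs_of_nonneg (Hp_fst hpw)] at this
        have hposu : 0 < (u - c0).1 + |(u - c0).2| := by
          have := Hp_denom hpu
          rwa [abs_of_nonneg (Hp_fst hpu)] at this
        set L := (w - c0).1 + |(w - c0).2| with hL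
        set M := (u - c0).1 + |(u - c0).2| with hM
        have hkey : key (u - c0) = key (w - c0) := by
          apply le_antisymm
          · by_contra hc
            push Not at hc
            have := (key_lt hpw hpu).mp hc
            have := D_swap (u - c0) (w - c0)
            linarith
          · by_contra hc
            push Not at hc
            have := (key_lt hpu hpw).mp hc
            linarith
        -- u - c0 = (M / L) • (w - c0)
        have h2 : (u - c0).2 = M / L * (w - c0).2 := by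
          unfold key at hkey
          rw [abs_of_nonneg (Hp_fst hpu), abs_of_nonneg (Hp_fst hpw), ← hL, ← hM] at hkey
          field_simp at hkey ⊢
          linarith
        have h1 : (u - c0).1 = M / L * (w - c0).1 := by
          have hML : 0 ≤ M / L := by positivity
          have : |(u - c0).2| = M / L * |(w - c0).2| := by
            rw [h2, abs_mul, abs_of_nonneg hML]
          have e1 : (u - c0).1 = M - |(u - c0).2| := by rw [hM]; ring
          have e2 : (w - c0).1 = L - |(w - c0).2| := by rw [hL]; ring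
          rw [e1, this, e2]
          field_simp
        have hML1 : M / L ≤ 1 := by rw [div_le_one hpos]; exact hle
        apply not_mem_hull hS hu
        have hcS : c0 ∈ ((S : Set (ℝ × ℝ)) \ {u}) := ⟨hc0, fun h => hu0 h.symm⟩
        have hwS : w ∈ ((S : Set (ℝ × ℝ)) \ {u}) := ⟨hw, fun h => huw h.symm⟩
        refine comb3_mem hcS hwS hwS (a := 1 - M / L) (b := M / L) (c := 0) (by linarith)
          (by positivity) le_rfl (by ring) ?_
        have h1' : u.1 - c0.1 = M / L * (w.1 - c0.1) := h1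
        have h2' : u.2 - c0.2 = M / L * (w.2 - c0.2) := h2
        apply Prod.ext
        · simp only [Prod.fst_add, Prod.smul_fst, smul_eq_mul]
          linarith
        · simp only [Prod.snd_add, Prod.smul_snd, smul_eq_mul]
          linarith
      rcases le_total ((x - c0).1 + |(x - c0).2|) ((y - c0).1 + |(y - c0).2|) with h | h
      · exact main x y hx hy h1 h2 hne' hD0 hpx hpy h
      · exact main y x hy hx h2 h1 hne'.symm (by rw [D_swap, hD0, neg_zero]) hpy hpx h
  have hcard : Fintype.card S = m := by simpa using hm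
  obtain ⟨e, hlt⟩ := exists_enum_of_inj hcard K hKinj
  refine ⟨e, ?_⟩
  intro i j k hij hjk
  have h1 := hlt i j hij
  have h2 := hlt j k hjk
  have hne_c0 : ∀ x y : S, K x < K y → (y : ℝ × ℝ) ≠ c0 := by
    intro x y hxy hy
    simp only [hK] at hxy
    rw [if_pos hy] at hxy
    split_ifs at hxy
    · linarith
    · have := key_abs_le ((x : ℝ × ℝ) - c0); linarith
  have hj0 := hne_c0 _ _ h1
  have hk0 := hne_c0 _ _ h2
  have hjk' : 0 < D ((e j : ℝ × ℝ) - c0) ((e k : ℝ × ℝ) - c0) := by
    rw [← key_lt (hHp _ (e j).2 hj0) (hHp _ (e k).2 hk0)]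
    simpa [hK, hj0, hk0] using h2
  show 0 < det3 (e i : ℝ × ℝ) (e j : ℝ × ℝ) (e k : ℝ × ℝ)
  by_cases hi0 : (e i : ℝ × ℝ) = c0
  · rw [hi0]
    have : det3 c0 (e j : ℝ × ℝ) (e k : ℝ × ℝ) = D ((e j : ℝ × ℝ) - c0) ((e k : ℝ × ℝ) - c0) := by
      simp [det3, D]
    rw [this]; exact hjk'
  · have hij' : 0 < D ((e i : ℝ × ℝ) - c0) ((e j : ℝ × ℝ) - c0) := by
      rw [← key_lt (hHp _ (e i).2 hi0) (hHp _ (e j).2 hj0)]
      simpa [hK, hi0, hj0] using h1
    have hik' : 0 < D ((e i : ℝ × ℝ) - c0) ((e k : ℝ × ℝ) - c0) := by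
      rw [← key_lt (hHp _ (e i).2 hi0) (hHp _ (e k).2 hk0)]
      have := h1.trans h2
      simpa [hK, hi0, hk0] using this
    by_contra hcon
    push Not at hcon
    set x := (e i : ℝ × ℝ) with hx
    set y := (e j : ℝ × ℝ) with hy
    set z := (e k : ℝ × ℝ) with hz
    set A := D (x - c0) (y - c0) with hA
    set B := D (y - c0) (z - c0) with hB
    set C := D (x - c0) (z - c0) with hC
    have hdet : det3 x y z = A + B - C := by
      simp only [hA, hB, hC, D, det3, Prod.fst_sub, Prod.snd_sub]; ring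
    rw [hdet] at hcon
    apply not_mem_hull hS (e j).2
    have hyx : x ≠ y := fun h => by
      have : i = j := e.injective (Subtype.ext h)
      exact absurd this hij.ne
    have hyz : z ≠ y := fun h => by
      have : k = j := e.injective (Subtype.ext h)
      exact absurd this hjk.ne'
    have hcS : c0 ∈ ((S : Set (ℝ × ℝ)) \ {(e j : ℝ × ℝ)}) := ⟨hc0, fun h => hj0 h.symm⟩
    have hxS : x ∈ ((S : Set (ℝ × ℝ)) \ {(e j : ℝ × ℝ)}) := ⟨(e i).2, fun h => hyx h⟩
    have hzS : z ∈ ((S : Set (ℝ × ℝ)) \ {(e j : ℝ × ℝ)}) := ⟨(e k).2, fun h => hyz h⟩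
    refine comb3_mem hcS hxS hzS (a := (C - A - B) / C) (b := B / C) (c := A / C)
      (div_nonneg (by linarith) hik'.le) (by positivity) (by positivity) (by field_simp; ring) ?_
    have hCne : C ≠ 0 := hik'.ne'
    apply Prod.ext
    · simp only [Prod.fst_add, Prod.smul_fst, smul_eq_mul]
      field_simp
      simp only [hA, hB, hC, D, Prod.fst_sub, Prod.snd_sub]
      ring
    · simp only [Prod.snd_add, Prod.smul_snd, smul_eq_mul]
      field_simp
      simp only [hA, hB, hC, D, Prod.fst_sub, Prod.snd_sub]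
      ring

lemma det3_rot (p q r : ℝ × ℝ) : det3 p q r = det3 q r p := by unfold det3; ring

lemma det3_swap (p q r : ℝ × ℝ) : det3 p q r = - det3 p r q := by unfold det3; ring

lemma det3_self (p q : ℝ × ℝ) : det3 p q q = 0 := by unfold det3; ring

lemma CCW.sign_eq {m : ℕ} {c c' : Fin m → ℝ × ℝ} (hc : CCW c) (hc' : CCW c') (i j k : Fin m) :
    SignType.sign (det3 (c i) (c j) (c k)) = SignType.sign (det3 (c' i) (c' j) (c' k)) := by
  have key : ∀ i j k : Fin m, i < j → j < k → 
      SignType.sign (det3 (c i) (c j) (c k)) = SignType.sign (det3 (c' i) (c' j) (c' k)) := by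
    intro i j k h1 h2
    rw [sign_pos (hc i j k h1 h2), sign_pos (hc' i j k h1 h2)]
  -- reduce to the case where i is the minimum, by rotation
  have key2 : ∀ i j k : Fin m, i ≤ j → i ≤ k → 
      SignType.sign (det3 (c i) (c j) (c k)) = SignType.sign (det3 (c' i) (c' j) (c' k)) := by
    intro i j k h1 h2
    rcases eq_or_lt_of_le h1 with h1 | h1
    · subst h1
      have e : ∀ a b : ℝ × ℝ, det3 a a b = 0 := by intro a b; unfold det3; ring
      rw [e, e]
    rcases eq_or_lt_of_le h2 with h2 | h2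
    · subst h2
      have e : ∀ a b : ℝ × ℝ, det3 a b a = 0 := by intro a b; unfold det3; ring
      rw [e, e]
    rcases lt_trichotomy j k with h | h | h
    · exact key i j k h1 h
    · subst h
      rw [det3_self, det3_self]
    · rw [det3_swap, det3_swap (c' i), Left.sign_neg, Left.sign_neg, key i k j h2 h]
  rcases le_total i j with h1 | h1 <;> rcases le_total j k with h2 | h2 <;>
    rcases le_total i k with h3 | h3
  · exact key2 i j k h1 h3
  · exact key2 i j k h1 (h1.trans h2)
  · exact key2 i j k h1 h3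
  · rw [det3_rot, det3_rot (c' i), det3_rot, det3_rot (c' j)]
    exact key2 k i j h3 h2
  · rw [det3_rot, det3_rot (c' i)]
    exact key2 j k i h2 h1
  · rw [det3_rot, det3_rot (c' i)]
    exact key2 j k i h2 h1
  · rw [det3_rot, det3_rot (c' i), det3_rot, det3_rot (c' j)]
    exact key2 k i j (h2.trans h1) h2
  · rw [det3_rot, det3_rot (c' i), det3_rot, det3_rot (c' j)]
    exact key2 k i j h3 h2

abbrev FullCode (m t : ℕ) : Type :=
  (Fin t → PtCode m) × (Fin t → Fin t → Fin m → SignType) × (Fin t → Fin t → Fin t → SignType)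

noncomputable instance (m t : ℕ) : Fintype (FullCode m t) := instFintypeProd (Fin t → PtCode m) _

/-- `cd` encodes the order type of `S` -/
def Enc (S : Finset (ℝ × ℝ)) (m t : ℕ) (cd : FullCode m t) : Prop :=
  ∃ e : Fin m ⊕ Fin t ≃ S, CCW (fun i => ((e (Sum.inl i) : S) : ℝ × ℝ)) ∧
    (∀ a, EncPt (fun i => ((e (Sum.inl i) : S) : ℝ × ℝ)) (e (Sum.inr a)) (cd.1 a)) ∧
    (∀ a b i, cd.2.1 a b i =
      SignType.sign (det3 (e (Sum.inr a)) (e (Sum.inr b)) (e (Sum.inl i)))) ∧
    (∀ a b c, cd.2.2 a b c =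
      SignType.sign (det3 (e (Sum.inr a)) (e (Sum.inr b)) (e (Sum.inr c))))

lemma Enc.same {S S' : Finset (ℝ × ℝ)} {m t : ℕ} {cd : FullCode m t} (h : Enc S m t cd)
    (h' : Enc S' m t cd) : SameOrderType S S' := by
  obtain ⟨e, hc, h1, h2, h3⟩ := h
  obtain ⟨e', hc', h1', h2', h3'⟩ := h'
  have hne : ∀ a i, ((e (Sum.inl i) : S) : ℝ × ℝ) ≠ e (Sum.inr a) := by
    intro a i hh
    have := e.injective (Subtype.ext hh)
    simp at this
  have hne' : ∀ a i, ((e' (Sum.inl i) : S') : ℝ × ℝ) ≠ e' (Sum.inr a) := by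
    intro a i hh
    have := e'.injective (Subtype.ext hh)
    simp at this
  have p1 : ∀ a i j, SignType.sign (det3 (e' (Sum.inr a)) (e' (Sum.inl i)) (e' (Sum.inl j))) =
      SignType.sign (det3 (e (Sum.inr a)) (e (Sum.inl i)) (e (Sum.inl j))) := fun a i j =>
    ((h1 a).sign_eq (h1' a) (hne a) (hne' a) i j).symm
  have p2 : ∀ a b i, SignType.sign (det3 (e' (Sum.inr a)) (e' (Sum.inr b)) (e' (Sum.inl i))) =
      SignType.sign (det3 (e (Sum.inr a)) (e (Sum.inr b)) (e (Sum.inl i))) := fun a b i =>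
    (h2' a b i).symm.trans (h2 a b i)
  have p3 : ∀ a b i, SignType.sign (det3 (e' (Sum.inr a)) (e' (Sum.inr b)) (e' (Sum.inr i))) =
      SignType.sign (det3 (e (Sum.inr a)) (e (Sum.inr b)) (e (Sum.inr i))) := fun a b i =>
    (h3' a b i).symm.trans (h3 a b i)
  have main : ∀ x y z : Fin m ⊕ Fin t, SignType.sign (det3 (e' x) (e' y) (e' z)) =
      SignType.sign (det3 (e x) (e y) (e z)) := by
    rintro (i | a) (j | b) (k | c)
    · exact hc'.sign_eq hc i j k
    · rw [← det3_rot, p1, det3_rot]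
    · rw [det3_rot, p1, det3_rot (e (Sum.inl i) : ℝ × ℝ)]
    · rw [det3_rot, p2, det3_rot (e (Sum.inl i) : ℝ × ℝ)]
    · exact p1 a j k
    · rw [← det3_rot, p2, det3_rot]
    · exact p2 a b k
    · exact p3 a b c
  refine ⟨e.symm.trans e', fun p q r => ?_⟩
  have := main (e.symm p) (e.symm q) (e.symm r)
  simpa using this

lemma inConvexPosition_empty : InConvexPosition ∅ := by
  intro p hp; simp at hp

lemma exists_enc {n k : ℕ} (S : Finset (ℝ × ℝ)) (hn : S.card = n) (hk : dtc S < k) :
    ∃ cd : (Σ t : Fin k, FullCode (n - t) t), Enc S (n - cd.1) cd.1 cd.2 := by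
  classical
  have hne : {d : ℕ | ∃ R : Finset (ℝ × ℝ), R ⊆ S ∧ R.card = d ∧
      InConvexPosition (S \ R)}.Nonempty :=
    ⟨S.card, S, Finset.Subset.refl _, rfl, by rw [Finset.sdiff_self]; exact inConvexPosition_empty⟩
  obtain ⟨R, hRS, hRc, hR⟩ := Nat.sInf_mem hne
  change R.card = dtc S at hRc
  set t := dtc S with ht
  have hcard : (S \ R).card = n - t := by
    rw [Finset.card_sdiff_of_subset hRS, hn, hRc]
  obtain ⟨e1, he1⟩ := exists_enum (S \ R) hR (n - t) hcard
  have e2 : Fin t ≃ R := (Finset.equivFinOfCardEq hRc).symm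
  let f : Fin (n - t) ⊕ Fin t → S := Sum.elim
    (fun i => ⟨e1 i, (Finset.mem_sdiff.mp (e1 i).2).1⟩) (fun a => ⟨e2 a, hRS (e2 a).2⟩)
  have htn : t ≤ n := by
    rw [← hRc, ← hn]; exact Finset.card_le_card hRS
  have hf : Function.Bijective f := by
    rw [Fintype.bijective_iff_injective_and_card]
    constructor
    · rintro (i | a) (j | b) hab
      · have h0 : (f (Sum.inl i)).1 = (f (Sum.inl j)).1 := congrArg Subtype.val hab
        have : (e1 i : ℝ × ℝ) = e1 j := h0
        rw [e1.injective (Subtype.ext this)]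
      · exfalso
        have h1 : (e1 i : ℝ × ℝ) = e2 b := congrArg Subtype.val hab
        have h2 := (Finset.mem_sdiff.mp (e1 i).2).2
        rw [h1] at h2
        exact h2 (e2 b).2
      · exfalso
        have h1 : (e2 a : ℝ × ℝ) = e1 j := congrArg Subtype.val hab
        have h2 := (Finset.mem_sdiff.mp (e1 j).2).2
        rw [← h1] at h2
        exact h2 (e2 a).2
      · have h0 : (f (Sum.inr a)).1 = (f (Sum.inr b)).1 := congrArg Subtype.val hab
        have : (e2 a : ℝ × ℝ) = e2 b := h0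
        rw [e2.injective (Subtype.ext this)]
    · simp only [Fintype.card_sum, Fintype.card_fin, Fintype.card_coe, hn]
      omega
  let e : Fin (n - t) ⊕ Fin t ≃ S := Equiv.ofBijective f hf
  have hne' : ∀ a i, ((e (Sum.inl i) : S) : ℝ × ℝ) ≠ e (Sum.inr a) := by
    intro a i hh
    have := e.injective (Subtype.ext hh)
    simp at this
  have hccw : CCW (fun i => ((e (Sum.inl i) : S) : ℝ × ℝ)) := he1
  choose cd1 hcd1 using fun a => exists_encPt (fun i => ((e (Sum.inl i) : S) : ℝ × ℝ))
    (e (Sum.inr a)) hccw (hne' a)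
  exact ⟨⟨⟨t, hk⟩, cd1, fun a b i =>
    SignType.sign (det3 (e (Sum.inr a)) (e (Sum.inr b)) (e (Sum.inl i))), fun a b c =>
    SignType.sign (det3 (e (Sum.inr a)) (e (Sum.inr b)) (e (Sum.inr c)))⟩,
    e, hccw, hcd1, fun _ _ _ => rfl, fun _ _ _ => rfl⟩

lemma exists_inj (k n : ℕ) : ∃ f : Quotient (orderTypeSetoid k n) →
    (Σ t : Fin k, FullCode (n - t) t), Function.Injective f := by
  choose F hF using fun S : {S : Finset (ℝ × ℝ) // S.card = n ∧ dtc S < k} =>
    exists_enc (n := n) (k := k) S.1 S.2.1 S.2.2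
  refine ⟨fun Q => F Q.out, ?_⟩
  intro Q Q' h
  have h1 := hF Q.out
  have h2 := hF Q'.out
  simp only at h
  rw [← h] at h2
  have h3 : SameOrderType Q.out.1 Q'.out.1 := h1.same h2
  rw [← Quotient.out_eq Q, ← Quotient.out_eq Q']
  exact Quotient.sound h3

instance finite_classes (k n : ℕ) : Finite (Quotient (orderTypeSetoid k n)) := by
  obtain ⟨f, hf⟩ := exists_inj k n
  exact Finite.of_injective f hf

lemma card_fullCode_le (m t k n : ℕ) (hm : m ≤ n) (ht : t ≤ k) :
    Fintype.card (FullCode m t) ≤ 2 ^ ((205 * n + 110) * k + 2 * n * k ^ 2 + 2 * k ^ 3) := by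
  have hsign : Fintype.card SignType = 3 := rfl
  have h1 : Fintype.card (FullCode m t) = (2 ^ m * (10 ^ m * (2 ^ 10 * ((2 ^ (2 * m + 1)) ^ 10) ^ 10))) ^ t
      * (((3 ^ m) ^ t) ^ t * ((3 ^ t) ^ t) ^ t) := by
    simp [FullCode, PtCode, Code, Fintype.card_finset, hsign]
  rw [h1]
  have h2 : (10 : ℕ) ^ m ≤ 2 ^ (4 * m) := by
    rw [pow_mul]; exact Nat.pow_le_pow_left (by norm_num) m
  have h3 : ((2 : ℕ) ^ m * (10 ^ m * (2 ^ 10 * ((2 ^ (2 * m + 1)) ^ 10) ^ 10))) ≤
      2 ^ (205 * m + 110) := by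
    calc _ ≤ (2 : ℕ) ^ m * (2 ^ (4 * m) * (2 ^ 10 * ((2 ^ (2 * m + 1)) ^ 10) ^ 10)) := by gcongr
      _ = 2 ^ (205 * m + 110) := by ring
  have h4 : ∀ a : ℕ, (3 : ℕ) ^ a ≤ 2 ^ (2 * a) := by
    intro a; rw [pow_mul]; exact Nat.pow_le_pow_left (by norm_num) a
  have h5 : (((3 : ℕ) ^ m) ^ t) ^ t ≤ 2 ^ (2 * n * k ^ 2) := by
    calc (((3 : ℕ) ^ m) ^ t) ^ t = 3 ^ (m * t * t) := by rw [← pow_mul, ← pow_mul]; ring_nf
      _ ≤ 2 ^ (2 * (m * t * t)) := h4 _
      _ ≤ 2 ^ (2 * n * k ^ 2) := by
        apply Nat.pow_le_pow_right (by norm_num)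
        calc 2 * (m * t * t) = 2 * m * t ^ 2 := by ring
          _ ≤ 2 * n * k ^ 2 := by gcongr
  have h6 : (((3 : ℕ) ^ t) ^ t) ^ t ≤ 2 ^ (2 * k ^ 3) := by
    calc (((3 : ℕ) ^ t) ^ t) ^ t = 3 ^ (t ^ 3) := by rw [← pow_mul, ← pow_mul]; ring_nf
      _ ≤ 2 ^ (2 * t ^ 3) := h4 _
      _ ≤ 2 ^ (2 * k ^ 3) := by
        apply Nat.pow_le_pow_right (by norm_num)
        gcongr
  have h7 : ((2 : ℕ) ^ m * (10 ^ m * (2 ^ 10 * ((2 ^ (2 * m + 1)) ^ 10) ^ 10))) ^ t ≤
      2 ^ ((205 * n + 110) * k) := by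
    calc _ ≤ ((2 : ℕ) ^ (205 * m + 110)) ^ t := Nat.pow_le_pow_left h3 t
      _ = 2 ^ ((205 * m + 110) * t) := by rw [← pow_mul]
      _ ≤ 2 ^ ((205 * n + 110) * k) := by
        apply Nat.pow_le_pow_right (by norm_num)
        gcongr
  calc _ ≤ 2 ^ ((205 * n + 110) * k) * (2 ^ (2 * n * k ^ 2) * 2 ^ (2 * k ^ 3)) := by gcongr
    _ = _ := by rw [← pow_add, ← pow_add]; ring_nf

lemma upper_bound (k n : ℕ) (hn : 1 ≤ n) :
    numOrderTypes k n ≤ 2 ^ (n * (316 * k + 2 * k ^ 2 + 2 * k ^ 3)) := by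
  obtain ⟨f, hf⟩ := exists_inj k n
  have h1 : numOrderTypes k n ≤ Fintype.card (Σ t : Fin k, FullCode (n - t) t) := by
    unfold numOrderTypes
    rw [← Nat.card_eq_fintype_card]
    exact Nat.card_le_card_of_injective f hf
  refine h1.trans ?_
  rw [Fintype.card_sigma]
  calc ∑ t : Fin k, Fintype.card (FullCode (n - t) t)
      ≤ ∑ t : Fin k, 2 ^ ((205 * n + 110) * k + 2 * n * k ^ 2 + 2 * k ^ 3) := by
        apply Finset.sum_le_sum
        intro t _
        exact card_fullCode_le _ _ _ _ (Nat.sub_le _ _) t.2.le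
    _ = k * 2 ^ ((205 * n + 110) * k + 2 * n * k ^ 2 + 2 * k ^ 3) := by simp
    _ ≤ 2 ^ k * 2 ^ ((205 * n + 110) * k + 2 * n * k ^ 2 + 2 * k ^ 3) := by
        gcongr; exact (Nat.lt_two_pow_self).le
    _ = 2 ^ (k + ((205 * n + 110) * k + 2 * n * k ^ 2 + 2 * k ^ 3)) := by rw [← pow_add]
    _ ≤ 2 ^ (n * (316 * k + 2 * k ^ 2 + 2 * k ^ 3)) := by
        apply Nat.pow_le_pow_right (by norm_num)
        have e1 : k ≤ n * k := Nat.le_mul_of_pos_left _ hn
        have e2 : k ^ 3 ≤ n * k ^ 3 := Nat.le_mul_of_pos_left _ hn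
        nlinarith

/-- abscissas of the points of the parabola used in the lower bound -/
noncomputable def zz (a : ℕ) (c : ℕ → Bool) (i : ℕ) : ℝ :=
  if i < a then -(2 / 3 ^ (i + 1)) else (if c (i - a) then 2 else 1) * 3 ^ (i - a)

lemma zz_strictMono (a : ℕ) (c : ℕ → Bool) : StrictMono (zz a c) := by
  apply strictMono_nat_of_lt_succ
  intro i
  unfold zz
  by_cases h1 : i + 1 < a
  · have h2 : i < a := by omega
    rw [if_pos h1, if_pos h2]
    have : (0 : ℝ) < 3 ^ (i + 1) := by positivity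
    rw [neg_lt_neg_iff]
    apply div_lt_div_of_pos_left (by norm_num) this
    apply pow_lt_pow_right₀ (by norm_num) (by omega)
  · rw [if_neg h1]
    by_cases h2 : i < a
    · rw [if_pos h2]
      have h3 : (0 : ℝ) < 2 / 3 ^ (i + 1) := by positivity
      have h4 : (0 : ℝ) < (if c (i + 1 - a) then 2 else 1) * 3 ^ (i + 1 - a) := by
        split_ifs <;> positivity
      linarith
    · rw [if_neg h2]
      have e : i + 1 - a = (i - a) + 1 := by omega
      rw [e, pow_succ]
      have h3 : (0 : ℝ) < 3 ^ (i - a) := by positivity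
      split_ifs <;> nlinarith

/-- the points of the parabola -/
noncomputable def pp (a : ℕ) (c : ℕ → Bool) (i : ℕ) : ℝ × ℝ := (zz a c i, zz a c i ^ 2)

lemma pp_inj (a : ℕ) (c : ℕ → Bool) {i j : ℕ} (h : pp a c i = pp a c j) : i = j :=
  (zz_strictMono a c).injective (congrArg Prod.fst h)

lemma pp_ne (a : ℕ) (c : ℕ → Bool) (i : ℕ) : pp a c i ≠ (0, 1) := by
  intro h
  have h1 : zz a c i = 0 := congrArg Prod.fst h
  have h2 : zz a c i ^ 2 = 1 := congrArg Prod.snd h
  rw [h1] at h2
  norm_num at h2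

noncomputable def conf (a m : ℕ) (c : ℕ → Bool) : Finset (ℝ × ℝ) :=
  insert (0, 1) (Finset.univ.image (fun i : Fin m => pp a c i))

lemma conf_card (a m : ℕ) (c : ℕ → Bool) : (conf a m c).card = m + 1 := by
  unfold conf
  rw [Finset.card_insert_of_notMem, Finset.card_image_of_injective]
  · simp
  · intro i j h
    exact Fin.ext (pp_inj a c h)
  · intro h
    rw [Finset.mem_image] at h
    obtain ⟨i, _, hi⟩ := h
    exact pp_ne a c i hi

lemma parabola_convexPosition (T : Finset (ℝ × ℝ)) (hT : ∀ q ∈ T, q.2 = q.1 ^ 2) :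
    InConvexPosition T := by
  have hsub : convexHull ℝ (T : Set (ℝ × ℝ)) ⊆ {q : ℝ × ℝ | q.1 ^ 2 ≤ q.2} := by
    apply convexHull_min
    · intro q hq
      exact (hT q hq).ge
    · intro x hx y hy a b ha hb hab
      simp only [Set.mem_ofPred_eq, Prod.fst_add, Prod.smul_fst, smul_eq_mul, Prod.snd_add,
        Prod.smul_snd] at *
      have e : (a * x.1 + b * y.1) ^ 2 = a * x.1 ^ 2 + b * y.1 ^ 2 - a * b * (x.1 - y.1) ^ 2 := by
        have : b = 1 - a := by linarith
        subst this; ring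
      rw [e]
      have := mul_nonneg (mul_nonneg ha hb) (sq_nonneg (x.1 - y.1))
      nlinarith [mul_le_mul_of_nonneg_left hx ha, mul_le_mul_of_nonneg_left hy hb]
  intro q hq
  rw [mem_extremePoints]
  refine ⟨subset_convexHull ℝ _ hq, ?_⟩
  intro x hx y hy hxy
  have hx' : x.1 ^ 2 ≤ x.2 := hsub hx
  have hy' : y.1 ^ 2 ≤ y.2 := hsub hy
  obtain ⟨a, b, ha, hb, hab, hq'⟩ := hxy
  have h1 : a * x.1 + b * y.1 = q.1 := congrArg Prod.fst hq'
  have h2 : a * x.2 + b * y.2 = q.2 := congrArg Prod.snd hq'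
  have h3 := hT q hq
  have e : (a * x.1 + b * y.1) ^ 2 = a * x.1 ^ 2 + b * y.1 ^ 2 - a * b * (x.1 - y.1) ^ 2 := by
    have : b = 1 - a := by linarith
    subst this; ring
  have h4 : a * b * (x.1 - y.1) ^ 2 ≤ 0 := by
    rw [← h1, e] at h3
    nlinarith [mul_le_mul_of_nonneg_left hx' ha.le, mul_le_mul_of_nonneg_left hy' hb.le]
  have h5 : x.1 = y.1 := by
    have hab' : 0 < a * b := mul_pos ha hb
    have : (x.1 - y.1) ^ 2 ≤ 0 := by
      by_contra hc
      push Not at hc
      nlinarith [mul_pos hab' hc]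
    have : x.1 - y.1 = 0 := by nlinarith [sq_nonneg (x.1 - y.1)]
    linarith
  have h6 : x.1 = q.1 := by rw [← h1, ← h5, ← add_mul, hab, one_mul]
  have h7 : y.1 = q.1 := by rw [← h5, h6]
  rw [h6] at hx'
  rw [h7] at hy'
  have h8 : x.2 = q.2 := by
    by_contra hc
    have : q.2 < x.2 := lt_of_le_of_ne (by rw [h3]; exact hx') (Ne.symm hc)
    have hb' : b = 1 - a := by linarith
    subst hb'
    nlinarith [mul_pos ha (sub_pos.mpr this), mul_nonneg hb.le (sub_nonneg.mpr hy')]
  have h9 : y.2 = q.2 := by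
    by_contra hc
    have : q.2 < y.2 := lt_of_le_of_ne (by rw [h3]; exact hy') (Ne.symm hc)
    have hb' : a = 1 - b := by linarith
    subst hb'
    nlinarith [mul_pos hb (sub_pos.mpr this), mul_nonneg ha.le (sub_nonneg.mpr hx')]
  exact ⟨Prod.ext h6 h8, Prod.ext h7 h9⟩

lemma conf_dtc (a m : ℕ) (c : ℕ → Bool) : dtc (conf a m c) ≤ 1 := by
  apply Nat.sInf_le
  refine ⟨{(0, 1)}, ?_, by simp, ?_⟩
  · intro q hq
    rw [Finset.mem_singleton] at hq
    subst hq
    exact Finset.mem_insert_self _ _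
  · apply parabola_convexPosition
    intro q hq
    unfold conf at hq
    simp only [Finset.mem_sdiff, Finset.mem_insert, Finset.mem_image, Finset.mem_univ, true_and,
      Finset.mem_singleton] at hq
    obtain ⟨h1 | ⟨i, hi⟩, h2⟩ := hq
    · exact absurd h1 h2
    · rw [← hi]; rfl

lemma det_pp (a : ℕ) (c : ℕ → Bool) (i j k : ℕ) : det3 (pp a c i) (pp a c j) (pp a c k) =
    (zz a c j - zz a c i) * (zz a c k - zz a c i) * (zz a c k - zz a c j) := by
  simp only [det3, pp]; ring

lemma det_p0 (a : ℕ) (c : ℕ → Bool) (i j : ℕ) : det3 (0, 1) (pp a c i) (pp a c j) =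
    (zz a c j - zz a c i) * (zz a c i * zz a c j + 1) := by
  simp only [det3, pp]; ring

lemma label_unique {α : Type} (pt : α → ℝ × ℝ) {m : ℕ} (ψ ψ' : Fin (m + 1) → α)
    (hi : Function.Injective ψ) (hi' : Function.Injective ψ')
    (hr : ∀ i, ∃ j, ψ' j = ψ i) (h0 : ψ 0 = ψ' 0)
    (h : ∀ i j, 0 < i → 0 < j → (0 < det3 (pt (ψ 0)) (pt (ψ i)) (pt (ψ j)) ↔ i < j))
    (h' : ∀ i j, 0 < i → 0 < j → (0 < det3 (pt (ψ' 0)) (pt (ψ' i)) (pt (ψ' j)) ↔ i < j)) :
    ψ = ψ' := by
  choose θ hθ using hr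
  have hθinj : Function.Injective θ := by
    intro i j hij
    apply hi
    rw [← hθ i, ← hθ j, hij]
  have hθ0 : θ 0 = 0 := by
    apply hi'
    rw [hθ 0, h0]
  have hpos : ∀ i, 0 < i → 0 < θ i := by
    intro i hi0
    rw [Fin.pos_iff_ne_zero]
    intro hc
    rw [← hθ0] at hc
    exact hi0.ne' (hθinj hc)
  have hmono : StrictMono θ := by
    intro i j hij
    rcases eq_or_lt_of_le (Fin.zero_le i) with h1 | h1
    · rw [← h1, hθ0]
      exact hpos j (lt_of_le_of_lt (Fin.zero_le i) hij)
    · have h2 : 0 < j := lt_trans h1 hij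
      rw [← h' (θ i) (θ j) (hpos i h1) (hpos j h2), hθ, hθ, ← h0, h i j h1 h2]
      exact hij
  have hsurj : Function.Surjective θ := Finite.injective_iff_surjective.mp hθinj
  have hid : θ = id := by
    apply (hmono.range_inj strictMono_id).mp
    rw [hsurj.range_eq, Set.range_id]
  funext i
  rw [← hθ i, hid]
  rfl

lemma det_pos_iff (a : ℕ) (c : ℕ → Bool) {i j : ℕ} (hi : 0 < i) (hj : 0 < j) :
    0 < det3 (pp a c 0) (pp a c i) (pp a c j) ↔ i < j := by
  rw [det_pp]
  have h1 := zz_strictMono a c hi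
  have h2 := zz_strictMono a c hj
  have h3 : 0 < (zz a c i - zz a c 0) * (zz a c j - zz a c 0) := mul_pos (by linarith) (by linarith)
  rw [mul_pos_iff_of_pos_left h3, sub_pos]
  exact (zz_strictMono a c).lt_iff_lt

lemma pp_mem (a m : ℕ) (c : ℕ → Bool) (i : Fin m) : pp a c i ∈ conf a m c := by
  unfold conf
  exact Finset.mem_insert_of_mem (Finset.mem_image_of_mem _ (Finset.mem_univ i))

lemma p0_mem (a m : ℕ) (c : ℕ → Bool) : ((0, 1) : ℝ × ℝ) ∈ conf a m c :=
  Finset.mem_insert_self _ _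

lemma reconstruct (a m : ℕ) (c c' : ℕ → Bool) (S : Finset (ℝ × ℝ))
    (φ : conf a (m + 1) c ≃ S) (φ' : conf a (m + 1) c' ≃ S)
    (hφ : ∀ p q r, SignType.sign (det3 (φ p) (φ q) (φ r)) = SignType.sign (det3 p q r))
    (hφ' : ∀ p q r, SignType.sign (det3 (φ' p) (φ' q) (φ' r)) = SignType.sign (det3 p q r))
    (h0 : φ ⟨(0, 1), p0_mem a (m + 1) c⟩ = φ' ⟨(0, 1), p0_mem a (m + 1) c'⟩)
    (h1 : φ ⟨pp a c (0 : Fin (m + 1)), pp_mem a (m + 1) c 0⟩ =
      φ' ⟨pp a c' (0 : Fin (m + 1)), pp_mem a (m + 1) c' 0⟩)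
    (i j : Fin (m + 1)) :
    SignType.sign (det3 (0, 1) (pp a c i) (pp a c j)) =
      SignType.sign (det3 (0, 1) (pp a c' i) (pp a c' j)) := by
  have hsg : ∀ {u v : ℝ}, SignType.sign u = SignType.sign v → (0 < u ↔ 0 < v) := by
    intro u v h
    rw [← sign_eq_one_iff, h, sign_eq_one_iff]
  have key := label_unique (fun s : S => (s : ℝ × ℝ)) (m := m)
    (fun i => φ ⟨pp a c i, pp_mem a (m + 1) c i⟩) (fun i => φ' ⟨pp a c' i, pp_mem a (m + 1) c' i⟩)
    (by
      intro i j hij
      have := φ.injective hij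
      exact Fin.ext (pp_inj a c (congrArg Subtype.val this)))
    (by
      intro i j hij
      have := φ'.injective hij
      exact Fin.ext (pp_inj a c' (congrArg Subtype.val this)))
    (by
      intro i
      obtain ⟨⟨q, hq⟩, hq'⟩ := φ'.surjective (φ ⟨pp a c i, pp_mem a (m + 1) c i⟩)
      have hq2 := hq
      unfold conf at hq2
      rw [Finset.mem_insert] at hq2
      rcases hq2 with h | h
      · exfalso
        subst h
        rw [← h0] at hq'
        have := congrArg Subtype.val (φ.injective hq')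
        exact pp_ne a c i this.symm
      · rw [Finset.mem_image] at h
        obtain ⟨j, _, hj⟩ := h
        refine ⟨j, ?_⟩
        rw [← hq']
        congr 1
        exact Subtype.ext hj)
    h1
    (by
      intro i j hi hj
      rw [hsg (hφ _ _ _)]
      have := det_pos_iff a c (i := i) (j := j) (by simpa using hi) (by simpa using hj)
      simpa using this)
    (by
      intro i j hi hj
      rw [hsg (hφ' _ _ _)]
      have := det_pos_iff a c' (i := i) (j := j) (by simpa using hi) (by simpa using hj)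
      simpa using this)
  have e1 := hφ ⟨(0, 1), p0_mem a (m + 1) c⟩ ⟨pp a c i, pp_mem a (m + 1) c i⟩
    ⟨pp a c j, pp_mem a (m + 1) c j⟩
  have e2 := hφ' ⟨(0, 1), p0_mem a (m + 1) c'⟩ ⟨pp a c' i, pp_mem a (m + 1) c' i⟩
    ⟨pp a c' j, pp_mem a (m + 1) c' j⟩
  have k1 := congrFun key i
  have k2 := congrFun key j
  rw [k1, k2, h0, e2] at e1
  exact e1.symm

lemma bit_of_sign (a : ℕ) (c : ℕ → Bool) (t : ℕ) (ht : t < a) :
    0 < det3 (0, 1) (pp a c t) (pp a c (a + t)) ↔ c t = false := by
  rw [det_p0]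
  have h1 : zz a c t < zz a c (a + t) := zz_strictMono a c (by omega)
  rw [mul_pos_iff_of_pos_left (by linarith)]
  have h2 : zz a c t = -(2 / 3 ^ (t + 1)) := by unfold zz; rw [if_pos ht]
  have h3 : zz a c (a + t) = (if c t then 2 else 1) * 3 ^ t := by
    unfold zz; rw [if_neg (by omega)]; simp
  rw [h2, h3, pow_succ]
  have h4 : (0 : ℝ) < 3 ^ t := by positivity
  cases hc : c t
  · simp only [Bool.false_eq_true, if_false, iff_true]
    have : -(2 / (3 ^ t * 3)) * (1 * 3 ^ t) + 1 = (1 / 3 : ℝ) := by field_simp; norm_num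
    rw [this]; norm_num
  · simp only [if_true, Bool.true_eq_false, iff_false, not_lt]
    have : -(2 / (3 ^ t * 3)) * (2 * 3 ^ t) + 1 = (-1 / 3 : ℝ) := by field_simp; norm_num
    rw [this]; norm_num

/-- extend a finite sequence of bits -/
def ext {h : ℕ} (c : Fin h → Bool) (j : ℕ) : Bool := if hj : j < h then c ⟨j, hj⟩ else false

lemma lower_bound (k m : ℕ) (hk : 2 ≤ k) :
    2 ^ ((m + 1) / 2) ≤ (m + 2) ^ 2 * numOrderTypes k (m + 2) := by
  classical
  set h := (m + 1) / 2 with hh
  set a := m + 1 - h with ha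
  have hha : h ≤ a := by omega
  let cf : (Fin h → Bool) → {S : Finset (ℝ × ℝ) // S.card = m + 2 ∧ dtc S < k} := fun c =>
    ⟨conf a (m + 1) (ext c), conf_card _ _ _, lt_of_le_of_lt (conf_dtc _ _ _) (by omega)⟩
  let F : (Fin h → Bool) → Quotient (orderTypeSetoid k (m + 2)) := fun c => ⟦cf c⟧
  have hfib : ∀ Q ∈ Finset.univ.image F, (Finset.univ.filter (fun c => F c = Q)).card ≤
      (m + 2) ^ 2 := by
    intro Q _
    have hex : ∀ c : {c // F c = Q}, ∃ φ : conf a (m + 1) (ext c.1) ≃ Q.out.1,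
        ∀ p q r, SignType.sign (det3 (φ p) (φ q) (φ r)) = SignType.sign (det3 p q r) := by
      rintro ⟨c, hc⟩
      have h1 : F c = ⟦Q.out⟧ := by rw [hc]; exact (Quotient.out_eq Q).symm
      exact Quotient.exact h1
    choose φ hφ using hex
    let G : {c // F c = Q} → Q.out.1 × Q.out.1 := fun c =>
      (φ c ⟨(0, 1), p0_mem a (m + 1) (ext c.1)⟩,
        φ c ⟨pp a (ext c.1) (0 : Fin (m + 1)), pp_mem a (m + 1) (ext c.1) 0⟩)
    have hG : Function.Injective G := by
      intro c c' hcc
      have g0 : φ c ⟨(0, 1), p0_mem a (m + 1) (ext c.1)⟩ =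
        φ c' ⟨(0, 1), p0_mem a (m + 1) (ext c'.1)⟩ := congrArg Prod.fst hcc
      have g1 : φ c ⟨pp a (ext c.1) (0 : Fin (m + 1)), pp_mem a (m + 1) (ext c.1) 0⟩ =
        φ c' ⟨pp a (ext c'.1) (0 : Fin (m + 1)), pp_mem a (m + 1) (ext c'.1) 0⟩ :=
        congrArg Prod.snd hcc
      have hrec := reconstruct a m (ext c.1) (ext c'.1) Q.out.1 (φ c) (φ c') (hφ c) (hφ c') g0 g1
      apply Subtype.ext
      funext t
      have ht1 : (t : ℕ) < a := by omega
      have ht2 : a + (t : ℕ) < m + 1 := by omega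
      have := hrec ⟨t, by omega⟩ ⟨a + t, ht2⟩
      simp only at this
      have hb := bit_of_sign a (ext c.1) t ht1
      have hb' := bit_of_sign a (ext c'.1) t ht1
      rw [← sign_eq_one_iff, this, sign_eq_one_iff, hb'] at hb
      have e1 : ext c.1 t = c.1 t := by simp [ext]
      have e2 : ext c'.1 t = c'.1 t := by simp [ext]
      rw [e1, e2] at hb
      cases hx : c.1 t <;> cases hy : c'.1 t <;> simp_all
    have hcard : Fintype.card {c // F c = Q} ≤ (m + 2) ^ 2 := by
      calc Fintype.card {c // F c = Q} ≤ Fintype.card (Q.out.1 × Q.out.1) :=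
            Fintype.card_le_of_injective G hG
        _ = (m + 2) ^ 2 := by
            rw [Fintype.card_prod, Fintype.card_coe, Q.out.2.1, sq]
    rwa [Fintype.card_subtype] at hcard
  have h1 := Finset.card_le_mul_card_image (f := F) Finset.univ ((m + 2) ^ 2) hfib
  have h2 : (Finset.univ : Finset (Fin h → Bool)).card = 2 ^ h := by simp
  rw [h2] at h1
  refine h1.trans (Nat.mul_le_mul_left _ ?_)
  have : Fintype (Quotient (orderTypeSetoid k (m + 2))) := Fintype.ofFinite _
  unfold numOrderTypes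
  rw [Nat.card_eq_fintype_card]
  exact Finset.card_le_univ _

/-- For every fixed `k ≥ 2`, `log c_k(n) = Θ(n)`. -/
theorem log_numOrderTypes_isTheta (k : ℕ) (hk : 2 ≤ k) :
    (fun n : ℕ => Real.log (numOrderTypes k n)) =Θ[Filter.atTop] (fun n : ℕ => (n : ℝ)) := by
  constructor
  · -- upper bound
    apply Asymptotics.IsBigO.of_bound ((316 * k + 2 * k ^ 2 + 2 * k ^ 3 : ℕ) * Real.log 2)
    filter_upwards [Filter.eventually_ge_atTop 1] with n hn
    have h1 := upper_bound k n hn
    rw [Real.norm_of_nonneg (Real.log_natCast_nonneg _), Real.norm_of_nonneg (Nat.cast_nonneg n)]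
    rcases Nat.eq_zero_or_pos (numOrderTypes k n) with h0 | h0
    · rw [h0]
      simp only [Nat.cast_zero, Real.log_zero]
      have := Real.log_nonneg (show (1 : ℝ) ≤ 2 by norm_num)
      positivity
    · calc Real.log (numOrderTypes k n)
          ≤ Real.log ((2 : ℝ) ^ (n * (316 * k + 2 * k ^ 2 + 2 * k ^ 3))) := by
            apply Real.log_le_log (by exact_mod_cast h0)
            exact_mod_cast h1
        _ = (316 * k + 2 * k ^ 2 + 2 * k ^ 3 : ℕ) * Real.log 2 * n := by
            rw [Real.log_pow]; push_cast; ring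
  · -- lower bound
    have hlog2 : 0 < Real.log 2 := Real.log_pos (by norm_num)
    apply Asymptotics.IsBigO.of_bound (16 / (5 * Real.log 2))
    have hlo := (Real.isLittleO_log_id_atTop.comp_tendsto
      (tendsto_natCast_atTop_atTop (R := ℝ))).def (show 0 < Real.log 2 / 16 by positivity)
    filter_upwards [Filter.eventually_ge_atTop 16, hlo] with n hn hl
    obtain ⟨m, rfl⟩ : ∃ m, n = m + 2 := ⟨n - 2, by omega⟩
    have h1 := lower_bound k m hk
    simp only [Function.comp, id] at hl
    rw [Real.norm_of_nonneg (Real.log_natCast_nonneg _), Real.norm_of_nonneg (Nat.cast_nonneg _)]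
      at hl
    rw [Real.norm_of_nonneg (Real.log_natCast_nonneg _), Real.norm_of_nonneg (Nat.cast_nonneg _)]
    have hpos : 0 < numOrderTypes k (m + 2) := by
      rcases Nat.eq_zero_or_pos (numOrderTypes k (m + 2)) with h0 | h0
      · rw [h0, mul_zero] at h1
        exact absurd h1 (not_le.mpr (by positivity))
      · exact h0
    have h2 : ((m + 1) / 2 : ℕ) * Real.log 2 ≤
        2 * Real.log ((m + 2 : ℕ) : ℝ) + Real.log (numOrderTypes k (m + 2)) := by
      have h3 : ((2 : ℝ) ^ ((m + 1) / 2)) ≤ ((m + 2 : ℕ) : ℝ) ^ 2 * numOrderTypes k (m + 2) := by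
        exact_mod_cast h1
      have h4 := Real.log_le_log (by positivity) h3
      have hp' : (0 : ℝ) < numOrderTypes k (m + 2) := by exact_mod_cast hpos
      rw [Real.log_pow, Real.log_mul (by positivity) hp'.ne', Real.log_pow] at h4
      exact_mod_cast h4
    have h5 : ((m + 2 : ℕ) : ℝ) * (7 / 16) ≤ (((m + 1) / 2 : ℕ) : ℝ) := by
      have h6 : m ≤ 2 * ((m + 1) / 2) := by omega
      have h7 : (m : ℝ) ≤ 2 * (((m + 1) / 2 : ℕ) : ℝ) := by exact_mod_cast h6
      have h8 : (14 : ℝ) ≤ m := by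
        have : 14 ≤ m := by omega
        exact_mod_cast this
      push_cast
      push_cast at h7
      linarith
    have h9 : ((m + 2 : ℕ) : ℝ) * (5 / 16) * Real.log 2 ≤
        Real.log (numOrderTypes k (m + 2)) := by
      have := mul_le_mul_of_nonneg_right h5 hlog2.le
      nlinarith
    rw [div_mul_eq_mul_div, le_div_iff₀ (by positivity)]
    nlinarith

end Pool.Agent.OrderTypesDTC
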